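import Pool.Agent.V8H52.OS.Fin

/-!
# Generic `Ω`-stable diffeomorphisms: conjugacies close to the identity

`V n = ℝⁿ`, `DiffM n N r = Diff^r(N)`, `strongTop n N r`: its `C^r` topology
(`Pool/Agent/H718R2/G0.lean`); `Omega F`, `OmegaStable n N r F` (`Pool/Agent/TH80/OMS/Defs.lean`) and
`Per F` (`Pool/Agent/TH80/OMS/SymDefs.lean`): nonwandering set, `Ω`-stability, periodic points.
`residual P`: the filter of the sets which contain a countable intersection of open dense sets.

In `Pool/Agent/V8H52/OS/Defs.lean`: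
* `NearConj δ G G'`: there is a homeomorphism `h : Ω(G) → Ω(G')` with `h ∘ G = G' ∘ h` and
  `d(h x, x) ≤ δ`;
* `Follows δ G G'`: there is a map `β` with `β ∘ G = G' ∘ β` and `d(β x, x) ≤ δ` on `Ω(G)`, which maps
  `Per(G)` bijectively onto `Per(G')`; so the `G'`-orbit of `β x` follows the `G`-orbit of `x ∈ Ω(G)`
  for all times (`β` need not be continuous);
* `PerNear δ G G'`: there is a bijection `β : Per(G) → Per(G')` with `β ∘ G = G' ∘ β`, `d(β x, x) ≤ δ`.
-/

set_option autoImplicit false

open scoped Manifold ContDiff Topology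

universe u v

namespace Pool.Agent.Results.MP_814647_an.NearIdentity

open Pool.Agent.H718R2.G Pool.Agent.TH80.OMS Pool.Agent.V8H52.OS

/-- Let `N` be a closed manifold, `1 ≤ r ≤ ∞`, and let `E` be a continuous family of `C^r`
diffeomorphisms of `N` with parameters in any topological space `P` (for instance `P = Diff^r(N)`,
`E = id`, or a path in `Diff^r(N)`). For all parameters `s` in a residual set `R` for which `E s` is
`Ω`-stable, and all `δ > 0`, there is a neighbourhood `W` of `s` such that for `t, t' ∈ W`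
* `E t` and `E t'` are conjugate on their nonwandering sets by a homeomorphism `δ`-close to the
  identity, if `t, t' ∈ R`;
* each orbit of `E t` in its nonwandering set is followed by an orbit of `E t'`, at distance at most
  `δ` for all times, if `t ∈ R` (`t'` arbitrary);
* the periodic points of `E t` (of all periods) correspond bijectively and equivariantly to the
  periodic points of `E t'`, at distance at most `δ` (`t, t'` arbitrary). -/
theorem result {n : ℕ} {N : Type u} [MetricSpace N] [CompactSpace N] [ChartedSpace (V n) N]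
    [IsManifold (𝓡 n) ∞ N] (r : ℕ∞) (hr : 1 ≤ r) (P : Type v) [TopologicalSpace P]
    (E : P → DiffM n N r)
    (hE : ∀ U : Set (DiffM n N r), IsOpen[strongTop n N r] U → IsOpen (E ⁻¹' U)) :
    ∃ R ∈ residual P, ∀ s ∈ R, OmegaStable n N r (E s) → ∀ δ : ℝ, 0 < δ →
      ∃ W : Set P, IsOpen W ∧ s ∈ W ∧
        (∀ t ∈ W ∩ R, ∀ t' ∈ W ∩ R, NearConj δ (E t) (E t')) ∧
        (∀ t ∈ W ∩ R, ∀ t' ∈ W, Follows δ (E t) (E t')) ∧
        ∀ t ∈ W, ∀ t' ∈ W, PerNear δ (E t) (E t') := by
  obtain ⟨R, hR, h⟩ := main_fam hr (E := E) hE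
  refine ⟨R, hR, fun s hs hst δ hδ => ?_⟩
  obtain ⟨W, hW, hsW, h1, h2, h3⟩ := h s hs hst δ hδ
  exact ⟨W, hW, hsW, fun t ht t' ht' => h1 t ht.1 ht.2 t' ht'.1 ht'.2,
    fun t ht t' ht' => h2 t ht.1 ht.2 t' ht', h3⟩

end Pool.Agent.Results.MP_814647_an.NearIdentity
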