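import Pool.Agent.V8H52.NH.One

/-!
# `Ω`-stable diffeomorphisms: invariant sets in hypersurfaces are uniformly normally hyperbolic

`V n = ℝⁿ`, `DiffM n N r = Diff^r(N)` (`Pool/Agent/H718R2/G0.lean`); `OmegaStable`
(`Pool/Agent/TH80/OMS/Defs.lean`). In `Pool/Agent/V8H52/NH/Defs.lean`: `InHypersurface n F φ a K` (`K` is
closed, `F(K) ⊆ K`, `φ = 0`, `dφ ≠ 0` and `d(φ ∘ F) = a dφ` on `K`); `ChainTrans F K`, `PerShadow F K`:
chain transitivity of `F` on `K`, and periodic shadowing: periodic pseudo-orbits in `K` with small jumps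
are shadowed by periodic orbits in `K`.
-/

set_option autoImplicit false

open scoped Manifold ContDiff Topology
open Set

namespace Pool.Agent.Results.MP_814647_an.NormalHyperbolicity

open Pool.Agent.H718R2.G Pool.Agent.TH80.OMS Pool.Agent.V8H52.NH

/-- Let `N` be a closed manifold with a distance, `1 ≤ r ≤ ∞`, and let `F ∈ Diff^r(N)` be `Ω`-stable.
Let `K` be a closed set with `F(K) ⊆ K` on which a smooth function `φ : N → ℝ` vanishes and is regular,
and assume that the hyperplanes `ker dφ_x`, `x ∈ K`, are invariant under `DF`: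
`d(φ ∘ F)_x = a(x) dφ_x`. (So `a(x)` is the action of `DF` on the normal bundle `TN / ker dφ` over `K`;
for instance, `K` is contained in a closed invariant hypersurface.) If `F` is chain transitive on `K`
and has the periodic shadowing property on `K`, then `F` is uniformly expanding, or uniformly
contracting, in the normal direction over `K`. -/
theorem result {n : ℕ} {N : Type} [MetricSpace N] [CompactSpace N] [ChartedSpace (V n) N]
    [IsManifold (𝓡 n) ∞ N] (r : ℕ∞) (hr : 1 ≤ r) (F : DiffM n N r) (hF : OmegaStable n N r F)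
    (φ a : N → ℝ) (K : Set N) (hK : InHypersurface n F φ a K) (hct : ChainTrans F K)
    (hps : PerShadow F K) :
    ∃ C l : ℝ, 0 < C ∧ 1 < l ∧
      ((∀ x ∈ K, ∀ m : ℕ, C⁻¹ * l ^ m ≤ ∏ i ∈ Finset.range m, |a (F^[i] x)|) ∨
       ∀ x ∈ K, ∀ m : ℕ, ∏ i ∈ Finset.range m, |a (F^[i] x)| ≤ C * (l⁻¹) ^ m) :=
  codim_one hr F hF hK.smooth hK.closed hK.maps hK.zero hK.regular hK.deriv hct hps

end Pool.Agent.Results.MP_814647_an.NormalHyperbolicity
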