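import Pool.Agent.V8H52.NH.Gap2

/-!
# `Ω`-stable diffeomorphisms: a quantitative gap for the eigenvalues at the periodic points

`V n = ℝⁿ`, `DiffM n N r = Diff^r(N)` (`Pool/Agent/H718R2/G0.lean`); `OmegaStable`
(`Pool/Agent/TH80/OMS/Defs.lean`); `ChartLip n N` (`Pool/Agent/Y368/CL/Met.lean`): the distance of `N` is
compatible with the smooth structure. In `Pool/Agent/V8H52/NH/MDefs.lean`: `IsMult n F m p μ` (`F^m(p) = p`
and `μ ∈ ℂ` is an eigenvalue of `D(F^m)_p`); `Separated F m p ρ` (the ball with radius `ρ i`,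
`0 < ρ i ≤ 1`, around `F^i(p)` contains no other point of `p, F(p), …, F^(m-1)(p)`).
-/

set_option autoImplicit false

open scoped Manifold ContDiff Topology

namespace Pool.Agent.Results.MP_814647_an.PeriodicEigenvalueGap

open Pool.Agent.H718R2.G Pool.Agent.TH80.OMS Pool.Agent.Y368.CL Pool.Agent.V8H52.NH

/-- Let `N` be a closed manifold with a compatible distance, `1 ≤ r ≤ ∞`, and let `F ∈ Diff^r(N)` be
`Ω`-stable. There are `1 ≤ k ≤ r` and `κ > 0` such that for every periodic orbit of `F`, `m` its minimal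
period and `ρ_i ≤ 1` the distance of its `i`-th point from the other points, all eigenvalues `μ` of the
derivative of `F^m` at the points of the orbit satisfy `|log |μ|| ≥ κ ∑_{i < m} ρ_i^(k - 1)`. -/
theorem result {n : ℕ} {N : Type} [MetricSpace N] [CompactSpace N] [ChartedSpace (V n) N]
    [IsManifold (𝓡 n) ∞ N] (hN : ChartLip n N) (r : ℕ∞) (hr : 1 ≤ r) (F : DiffM n N r)
    (hF : OmegaStable n N r F) :
    ∃ k : ℕ, 1 ≤ k ∧ (k : ℕ∞) ≤ r ∧ ∃ κ : ℝ, 0 < κ ∧
      ∀ (m : ℕ) (p : N) (ρ : ℕ → ℝ) (μ : ℂ), 1 ≤ m → Separated F m p ρ → IsMult n F m p μ →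
        μ ≠ 0 ∧ κ * ∑ i ∈ Finset.range m, ρ i ^ (k - 1) ≤ |Real.log ‖μ‖| :=
  gap2 hr hN F hF

end Pool.Agent.Results.MP_814647_an.PeriodicEigenvalueGap
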