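import Pool.Agent.V8H52.OS.Fin

/-!
# Generic `Ω`-stable diffeomorphisms: shadowing of periodic pseudo-orbits with sparse jumps

`V n = ℝⁿ`, `DiffM n N r = Diff^r(N)`, `strongTop n N r`: its `C^r` topology
(`Pool/Agent/H718R2/G0.lean`); `OmegaStable n N r F` (`Pool/Agent/TH80/OMS/Defs.lean`): `Ω`-stability.
`ChartLip n N` (`Pool/Agent/Y368/CL/Met.lean`): the distance of `N` is compatible with the smooth
structure (good charts are bi-Lipschitz near their centres; for instance a Riemannian distance).
`residual`: the filter of the sets which contain a countable intersection of open dense sets.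

In `Pool/Agent/V8H52/OS/Defs.lean`:
* `SparseOrbit G k κ m x`: a periodic pseudo-orbit `x 0, …, x m = x 0`, `m ≥ 1`, such that for each
  `i < m` either `G (x i) = x (i+1)` or `d(G (x i), x (i+1)) ≤ κ ρ^k` for some `0 < ρ < κ` which is at
  most the distance of `x (i+1)` from all the other points of the pseudo-orbit;
* `Shadows δ G k κ`: for each such pseudo-orbit there is a `p` with `G^m p = p` and
  `d(G^i p, x i) ≤ δ` for all `i ≤ m`.
-/

set_option autoImplicit false

open scoped Manifold ContDiff Topology

universe u

namespace Pool.Agent.Results.MP_814647_an.SparseShadowing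

open Pool.Agent.H718R2.G Pool.Agent.TH80.OMS Pool.Agent.Y368.CL Pool.Agent.V8H52.OS

/-- Let `N` be a closed manifold, with a distance compatible with the smooth structure, and
`1 ≤ r ≤ ∞`. For all `F` in a residual subset of `Diff^r(N)` which are `Ω`-stable and all `δ > 0`, all
`G` in a neighbourhood of `F` have the following shadowing property: there are `1 ≤ k ≤ r` and `κ > 0`
such that all periodic pseudo-orbits of `G` with jumps at most `κ ρ^k` are `δ`-shadowed by periodic
orbits of `G` of the same period, where `ρ < κ` is at most the distance of the point of the jump from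
the rest of the pseudo-orbit (any number of jumps, any period). -/
theorem result {n : ℕ} {N : Type u} [MetricSpace N] [CompactSpace N] [ChartedSpace (V n) N]
    [IsManifold (𝓡 n) ∞ N] (hN : ChartLip n N) (r : ℕ∞) (hr : 1 ≤ r) :
    ∃ R ∈ @residual _ (strongTop n N r), ∀ F ∈ R, OmegaStable n N r F → ∀ δ : ℝ, 0 < δ →
      ∃ W : Set (DiffM n N r), IsOpen[strongTop n N r] W ∧ F ∈ W ∧ ∀ G ∈ W,
        ∃ k : ℕ, 1 ≤ k ∧ (k : ℕ∞) ≤ r ∧ ∃ κ : ℝ, 0 < κ ∧ Shadows δ G k κ :=
  main_shadow hr hN

end Pool.Agent.Results.MP_814647_an.SparseShadowing
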